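import Mathlib
import Pool.Agent.helper86.CM.Defs2
import Pool.Agent.helper58.CM.TW

/-!
# Quantum cat maps, module V0: the rational vector
-/

open scoped BigOperators

namespace Pool.Agent.helper86.CM

noncomputable section

/-! ### the exponential -/

theorem V0_ee_add (x y : ℝ) : ee (x + y) = ee x * ee y := by
  unfold ee
  rw [← Complex.exp_add]
  congr 1
  push_cast
  ring

theorem V0_ee_int (k : ℤ) : ee (k : ℝ) = 1 := by
  unfold ee
  rw [Complex.exp_eq_one_iff]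
  exact ⟨k, by push_cast; ring⟩

theorem V0_ee_half : ee (1 / 2) = -1 := by
  unfold ee
  rw [← Complex.exp_pi_mul_I]
  congr 1
  push_cast
  ring

theorem V0_ee_neg (x : ℝ) : ee (-x) = (ee x)⁻¹ := by
  unfold ee
  rw [← Complex.exp_neg]
  congr 1
  push_cast
  ring

theorem V0_ee_nat_mul (n : ℕ) (x : ℝ) : ee (n * x) = ee x ^ n := by
  unfold ee
  rw [← Complex.exp_nat_mul]
  congr 1
  push_cast
  ring

/-- `ee (k / 2) = (-1) ^ |k|` -/
theorem V0_ee_half_int (k : ℤ) : ee ((k : ℝ) / 2) = (-1) ^ k.natAbs := by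
  obtain ⟨n, rfl | rfl⟩ := Int.eq_nat_or_neg k
  · have h : (((n : ℤ) : ℝ) / 2) = n * (1 / 2) := by push_cast; ring
    rw [h, V0_ee_nat_mul, V0_ee_half, Int.natAbs_natCast]
  · have h : (((-(n : ℤ) : ℤ) : ℝ) / 2) = -(n * (1 / 2)) := by push_cast; ring
    rw [h, V0_ee_neg, V0_ee_nat_mul, V0_ee_half, Int.natAbs_neg, Int.natAbs_natCast, ← inv_pow,
      inv_neg, inv_one]

theorem V0_ee_eq_one_iff (k : ℤ) (Q : ℕ) (hQ : Q ≠ 0) : ee ((k : ℝ) / Q) = 1 ↔ (Q : ℤ) ∣ k := by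
  unfold ee
  rw [Complex.exp_eq_one_iff]
  have hQ' : (Q : ℂ) ≠ 0 := by exact_mod_cast hQ
  constructor
  · rintro ⟨n, hn⟩
    refine ⟨n, ?_⟩
    have h2 : (2 * (Real.pi : ℂ) * Complex.I) ≠ 0 := Complex.two_pi_I_ne_zero
    have h3 : (((k : ℝ) / Q : ℝ) : ℂ) = n := by
      have h4 : (2 * (Real.pi : ℂ) * Complex.I) * (((k : ℝ) / Q : ℝ) : ℂ) =
          (2 * (Real.pi : ℂ) * Complex.I) * n := by
        rw [hn]; ring
      exact mul_left_cancel₀ h2 h4
    push_cast at h3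
    rw [div_eq_iff hQ'] at h3
    have h5 : k = n * Q := by exact_mod_cast h3
    rw [h5, mul_comm]
  · rintro ⟨n, rfl⟩
    refine ⟨n, ?_⟩
    push_cast
    field_simp

/-! ### divisibility in `ZMod (Q ^ 2)` -/

theorem V0_dvd_val_iff {Q : ℕ} [NeZero Q] (x : ZMod (Q ^ 2)) :
    Q ∣ x.val ↔ (Q : ZMod (Q ^ 2)) * x = 0 := by
  have hx : ((x.val : ℕ) : ZMod (Q ^ 2)) = x := ZMod.natCast_zmod_val x
  rw [← hx, ZMod.val_natCast, Nat.mod_eq_of_lt (ZMod.val_lt x), ← Nat.cast_mul,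
    ZMod.natCast_eq_zero_iff]
  have h := Nat.mul_dvd_mul_iff_left (b := Q) (c := x.val) (Nat.pos_of_ne_zero (NeZero.ne Q))
  rw [← pow_two] at h
  exact h.symm

theorem V0_QQ {Q : ℕ} [NeZero Q] : (Q : ZMod (Q ^ 2)) * (Q : ZMod (Q ^ 2)) = 0 := by
  rw [← Nat.cast_mul, ZMod.natCast_eq_zero_iff, pow_two]

theorem V0_dvd_add {Q : ℕ} [NeZero Q] (x : ZMod (Q ^ 2)) (a : ℤ) :
    Q ∣ (x + (((Q : ℤ) * a : ℤ) : ZMod (Q ^ 2))).val ↔ Q ∣ x.val := by
  rw [V0_dvd_val_iff, V0_dvd_val_iff, mul_add]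
  push_cast
  rw [← mul_assoc, V0_QQ, zero_mul, add_zero]

theorem V0_v0_apply (g Q : ℕ) [NeZero Q] (x : Fin g → ZMod (Q ^ 2)) :
    v0 g Q (Q ^ 2) x = (open Classical in if ∀ i, Q ∣ (x i).val then
      ((Real.sqrt Q : ℝ) : ℂ)⁻¹ ^ g else 0) := rfl

theorem V0_TT_apply {g N : ℕ} [NeZero N] (n : Lat g) (ψ : St g N) (x : Fin g → ZMod N) :
    TT n ψ x = ee ((qf n : ℝ) / (2 * N)) *
      ZMod.stdAddChar (∑ i, ((n (Sum.inr i) : ℤ) : ZMod N) * x i) *
        ψ (x + fun i => ((n (Sum.inl i) : ℤ) : ZMod N)) := rfl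

theorem V0_qf_smul {g : ℕ} (Q : ℕ) (z : Lat g) : qf (Q • z) = (Q : ℤ) ^ 2 * qf z := by
  unfold qf
  rw [Finset.mul_sum]
  refine Finset.sum_congr rfl fun i _ => ?_
  simp only [Pi.smul_apply, nsmul_eq_mul]
  ring

theorem V0_card (Q : ℕ) [NeZero Q] :
    (Finset.univ.filter fun a : ZMod (Q ^ 2) => Q ∣ a.val).card = Q := by
  have hQ : 0 < Q := Nat.pos_of_ne_zero (NeZero.ne Q)
  have hval : ∀ j, j < Q → ((((Q * j : ℕ) : ZMod (Q ^ 2))).val) = Q * j := by
    intro j hj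
    rw [ZMod.val_natCast, Nat.mod_eq_of_lt]
    rw [pow_two]
    exact Nat.mul_lt_mul_of_pos_left hj hQ
  conv_rhs => rw [← Finset.card_range Q]
  symm
  refine Finset.card_nbij' (fun j => ((Q * j : ℕ) : ZMod (Q ^ 2))) (fun a => a.val / Q) ?_ ?_ ?_ ?_
  · intro j hj
    have hj' : j < Q := by simpa using hj
    simp only [Finset.coe_filter, Finset.mem_univ, true_and, Set.mem_ofPred_eq]
    rw [hval j hj']
    exact Dvd.intro j rfl
  · intro a ha
    simp only [Finset.coe_range, Set.mem_Iio]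
    have := ZMod.val_lt a
    exact Nat.div_lt_of_lt_mul (by rw [← pow_two]; exact this)
  · intro j hj
    have hj' : j < Q := by simpa using hj
    simp only
    rw [hval j hj', Nat.mul_div_cancel_left _ hQ]
  · intro a ha
    have ha' : Q ∣ a.val := by simpa using ha
    simp only
    rw [Nat.mul_div_cancel' ha', ZMod.natCast_zmod_val]

theorem V0a (g Q : ℕ) [NeZero Q] : ‖v0 g Q (Q ^ 2)‖ = 1 := by
  have hQ : (0 : ℝ) < Q := by exact_mod_cast Nat.pos_of_ne_zero (NeZero.ne Q)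
  rw [EuclideanSpace.norm_eq]
  have h1 : ∀ x : Fin g → ZMod (Q ^ 2), ‖v0 g Q (Q ^ 2) x‖ ^ 2 =
      ∏ i, (if Q ∣ (x i).val then (Q : ℝ)⁻¹ else 0) := by
    intro x
    rw [V0_v0_apply]
    split_ifs with h
    · rw [Finset.prod_congr rfl (fun i _ => if_pos (h i)), Finset.prod_const, Finset.card_univ,
        Fintype.card_fin, norm_pow, norm_inv, Complex.norm_real, Real.norm_of_nonneg
        (Real.sqrt_nonneg _), ← pow_mul, mul_comm, pow_mul, inv_pow, Real.sq_sqrt hQ.le]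
    · push Not at h
      obtain ⟨i, hi⟩ := h
      rw [Finset.prod_eq_zero (Finset.mem_univ i) (if_neg hi)]
      simp
  have h2 : ∑ x : Fin g → ZMod (Q ^ 2), ∏ i, (if Q ∣ (x i).val then (Q : ℝ)⁻¹ else 0) = 1 := by
    have h3 := (Finset.prod_univ_sum (fun _ : Fin g => (Finset.univ : Finset (ZMod (Q ^ 2))))
      (fun _ a => if Q ∣ a.val then (Q : ℝ)⁻¹ else 0)).symm
    rw [Fintype.piFinset_univ] at h3
    rw [h3]
    have h4 : ∑ a : ZMod (Q ^ 2), (if Q ∣ a.val then (Q : ℝ)⁻¹ else 0) = 1 := by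
      rw [← Finset.sum_filter, Finset.sum_const, V0_card, nsmul_eq_mul, mul_inv_cancel₀ hQ.ne']
    simp only [h4, Finset.prod_const_one]
  rw [Finset.sum_congr rfl (fun x _ => h1 x), h2, Real.sqrt_one]

theorem V0b (g Q : ℕ) [NeZero Q] (z : Lat g) :
    TT (Q • z) (v0 g Q (Q ^ 2)) = ((-1 : ℂ) ^ (qf z).natAbs) • v0 g Q (Q ^ 2) := by
  have hQ : (Q : ℝ) ≠ 0 := by exact_mod_cast NeZero.ne Q
  ext x
  rw [V0_TT_apply, PiLp.smul_apply, smul_eq_mul, V0_v0_apply, V0_v0_apply]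
  have h1 : ((qf (Q • z) : ℤ) : ℝ) / (2 * ((Q ^ 2 : ℕ) : ℝ)) = ((qf z : ℤ) : ℝ) / 2 := by
    rw [V0_qf_smul]
    push_cast
    field_simp
  rw [h1, V0_ee_half_int]
  have h2 : (∀ i, Q ∣ ((x + fun i => (((Q • z) (Sum.inl i) : ℤ) : ZMod (Q ^ 2))) i).val) ↔
      ∀ i, Q ∣ (x i).val := by
    refine forall_congr' fun i => ?_
    have h3 : (x + fun i => (((Q • z) (Sum.inl i) : ℤ) : ZMod (Q ^ 2))) i =
        x i + (((Q : ℤ) * z (Sum.inl i) : ℤ) : ZMod (Q ^ 2)) := by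
      simp [Pi.smul_apply, nsmul_eq_mul]
    rw [h3, V0_dvd_add]
  simp only [h2]
  split_ifs with h
  · have h4 : (∑ i, (((Q • z) (Sum.inr i) : ℤ) : ZMod (Q ^ 2)) * x i) = 0 := by
      refine Finset.sum_eq_zero fun i _ => ?_
      have h5 := (V0_dvd_val_iff (x i)).1 (h i)
      have h6 : (((Q • z) (Sum.inr i) : ℤ) : ZMod (Q ^ 2)) = z (Sum.inr i) * Q := by
        simp [Pi.smul_apply, nsmul_eq_mul, mul_comm]
      rw [h6, mul_assoc, h5, mul_zero]
    rw [h4, AddChar.map_zero_eq_one, mul_one]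
  · simp

theorem V0c (g Q : ℕ) [NeZero Q] (v : St g (Q ^ 2))
    (hv : ∀ z : Lat g, TT (Q • z) v = ((-1 : ℂ) ^ (qf z).natAbs) • v) :
    ∃ c : ℂ, v = c • v0 g Q (Q ^ 2) := by
  have hQ : (Q : ℝ) ≠ 0 := by exact_mod_cast NeZero.ne Q
  -- the support
  have hsupp : ∀ x, v x ≠ 0 → ∀ i, Q ∣ (x i).val := by
    intro x hx i
    have h1 := congrArg (fun w : St g (Q ^ 2) => w x) (hv (Pi.single (Sum.inr i) 1))
    simp only [V0_TT_apply, PiLp.smul_apply, smul_eq_mul] at h1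
    have hq : qf (Pi.single (Sum.inr i) 1 : Lat g) = 0 := by
      unfold qf
      refine Finset.sum_eq_zero fun j _ => ?_
      simp
    have hq' : qf (Q • Pi.single (Sum.inr i) 1 : Lat g) = 0 := by
      rw [V0_qf_smul, hq, mul_zero]
    rw [hq, hq'] at h1
    have h2 : (x + fun j => (((Q • Pi.single (Sum.inr i) 1 : Lat g) (Sum.inl j) : ℤ) :
        ZMod (Q ^ 2))) = x := by
      ext j
      simp
    have h3 : (∑ j, (((Q • Pi.single (Sum.inr i) 1 : Lat g) (Sum.inr j) : ℤ) :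
        ZMod (Q ^ 2)) * x j) = Q * x i := by
      rw [Finset.sum_eq_single i]
      · simp
      · intro j _ hj
        simp [hj]
      · simp
    rw [h2, h3] at h1
    have h4 : ee (((0 : ℤ) : ℝ) / (2 * ((Q ^ 2 : ℕ) : ℝ))) = 1 := by
      rw [Int.cast_zero, zero_div]
      exact_mod_cast V0_ee_int 0
    rw [h4, one_mul, Int.natAbs_zero, pow_zero, one_mul] at h1
    have h5 : ZMod.stdAddChar ((Q : ZMod (Q ^ 2)) * x i) = (1 : ℂ) := by
      have := mul_right_cancel₀ hx (h1.trans (one_mul _).symm)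
      exact this
    rw [V0_dvd_val_iff]
    refine ZMod.injective_stdAddChar ?_
    rw [h5, AddChar.map_zero_eq_one]
  have hper : ∀ x, (∀ i, Q ∣ (x i).val) → v x = v 0 := by
    intro x hx
    choose y hy using hx
    have h1 := congrArg (fun w : St g (Q ^ 2) => w 0)
      (hv (fun k => Sum.elim (fun i => (y i : ℤ)) (fun _ => 0) k))
    simp only [V0_TT_apply, PiLp.smul_apply, smul_eq_mul] at h1
    have hq : qf (fun k => Sum.elim (fun i => (y i : ℤ)) (fun _ => 0) k : Lat g) = 0 := by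
      unfold qf
      refine Finset.sum_eq_zero fun j _ => ?_
      simp
    have hq' : qf (Q • (fun k => Sum.elim (fun i => (y i : ℤ)) (fun _ => 0) k) : Lat g) = 0 := by
      rw [V0_qf_smul, hq, mul_zero]
    rw [hq, hq'] at h1
    have h2 : ((0 : Fin g → ZMod (Q ^ 2)) + fun j =>
        (((Q • (fun k => Sum.elim (fun i => (y i : ℤ)) (fun _ => 0) k) : Lat g)
          (Sum.inl j) : ℤ) : ZMod (Q ^ 2))) = x := by
      ext j
      have h3 : ((x j).val : ZMod (Q ^ 2)) = x j := ZMod.natCast_zmod_val _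
      rw [← h3, hy j]
      simp
    have h3 : (∑ j, (((Q • (fun k => Sum.elim (fun i => (y i : ℤ)) (fun _ => 0) k) : Lat g)
        (Sum.inr j) : ℤ) : ZMod (Q ^ 2)) * (0 : Fin g → ZMod (Q ^ 2)) j) = 0 := by
      simp
    rw [h2, h3] at h1
    have h4 : ee (((0 : ℤ) : ℝ) / (2 * ((Q ^ 2 : ℕ) : ℝ))) = 1 := by
      rw [Int.cast_zero, zero_div]
      exact_mod_cast V0_ee_int 0
    rw [h4, one_mul, Int.natAbs_zero, pow_zero, one_mul, AddChar.map_zero_eq_one, one_mul] at h1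
    exact h1
  refine ⟨v 0 * ((Real.sqrt Q : ℝ) : ℂ) ^ g, ?_⟩
  ext x
  rw [PiLp.smul_apply, smul_eq_mul, V0_v0_apply]
  split_ifs with h
  · have hs : ((Real.sqrt Q : ℝ) : ℂ) ≠ 0 := by
      have : Real.sqrt Q ≠ 0 := by
        rw [Real.sqrt_ne_zero']
        exact_mod_cast Nat.pos_of_ne_zero (NeZero.ne Q)
      exact_mod_cast this
    rw [mul_assoc, ← mul_pow, mul_inv_cancel₀ hs, one_pow, mul_one]
    exact hper x h
  · rw [mul_zero]
    by_contra h0
    exact h (hsupp x h0)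

/-! ### consequences of the Weyl relations -/

theorem V0_inner {g N : ℕ} [NeZero N] (n : Lat g) (v w : St g N) :
    inner ℂ (TT n v) (TT n w) = inner ℂ v w := by
  obtain ⟨W, hW⟩ := TW g N
  let e : St g N →ₗᵢ[ℂ] St g N := ⟨TT n, fun v => by rw [← hW]; exact W.norm n v⟩
  exact e.inner_map_map v w

theorem V0_comm {g N : ℕ} [NeZero N] (m n : Lat g) (v : St g N) :
    TT m (TT n v) = ee ((omega m n : ℝ) / N) • TT n (TT m v) := by
  obtain ⟨W, hW⟩ := TW g N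
  have hN : (N : ℝ) ≠ 0 := by exact_mod_cast NeZero.ne N
  have h1 := W.mul m n v
  have h2 := W.mul n m v
  simp only [hW] at h1 h2
  rw [h1, h2, smul_smul, ← V0_ee_add, add_comm n m]
  congr 2
  have h3 : (omB g n m : ℤ) = - omB g m n := by
    have e1 := W.alt (m + n)
    simp only [map_add, LinearMap.add_apply, W.alt] at e1
    linarith
  have h4 : (omB g m n : ℤ) = omega m n := rfl
  rw [h3, h4]
  push_cast
  field_simp
  ring

theorem V0_omega_smul {g : ℕ} (Q : ℕ) (z n : Lat g) : omega (Q • z) n = Q * omega z n := by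
  unfold omega
  rw [Finset.mul_sum]
  refine Finset.sum_congr rfl fun i _ => ?_
  simp only [Pi.smul_apply, nsmul_eq_mul]
  ring

theorem V0_exists_omega {g : ℕ} (Q : ℕ) (n : Lat g) (hn : ¬ ∃ z : Lat g, n = Q • z) :
    ∃ z : Lat g, ¬ (Q : ℤ) ∣ omega z n := by
  by_contra hcon
  push Not at hcon
  apply hn
  have h : ∀ k, (Q : ℤ) ∣ n k := by
    intro k
    rcases k with i | i
    · have h1 := hcon (Pi.single (Sum.inr i) 1)
      have h2 : omega (Pi.single (Sum.inr i) 1) n = - n (Sum.inl i) := by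
        unfold omega
        rw [Finset.sum_eq_single i]
        · simp
        · intro j _ hj
          simp [hj]
        · simp
      rw [h2] at h1
      exact (Int.dvd_neg).1 h1
    · have h1 := hcon (Pi.single (Sum.inl i) 1)
      have h2 : omega (Pi.single (Sum.inl i) 1) n = n (Sum.inr i) := by
        unfold omega
        rw [Finset.sum_eq_single i]
        · simp
        · intro j _ hj
          simp [hj]
        · simp
      rwa [h2] at h1
  choose z hz using h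
  refine ⟨z, ?_⟩
  funext k
  rw [hz k]
  simp [nsmul_eq_mul]

theorem V0d (g Q : ℕ) [NeZero Q] (n : Lat g) (hn : ¬ ∃ z : Lat g, n = Q • z) :
    inner ℂ (v0 g Q (Q ^ 2)) (TT n (v0 g Q (Q ^ 2))) = 0 := by
  obtain ⟨z, hz⟩ := V0_exists_omega Q n hn
  have hQ : Q ≠ 0 := NeZero.ne Q
  have hQ' : (Q : ℝ) ≠ 0 := by exact_mod_cast hQ
  have h1 := V0_inner (Q • z) (v0 g Q (Q ^ 2)) (TT n (v0 g Q (Q ^ 2)))
  rw [V0_comm, V0b, map_smul, inner_smul_left, inner_smul_right, inner_smul_right] at h1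
  have h2 : ((omega (Q • z) n : ℤ) : ℝ) / ((Q ^ 2 : ℕ) : ℝ) = (omega z n : ℝ) / Q := by
    rw [V0_omega_smul]
    push_cast
    field_simp
  rw [h2] at h1
  have h3 : (starRingEnd ℂ) ((-1 : ℂ) ^ (qf z).natAbs) * (-1 : ℂ) ^ (qf z).natAbs = 1 := by
    rw [map_pow, ← mul_pow]
    simp
  have h4 : ee ((omega z n : ℝ) / Q) ≠ 1 := fun h => hz ((V0_ee_eq_one_iff _ Q hQ).1 h)
  have h5 : (ee ((omega z n : ℝ) / Q) - 1) * inner ℂ (v0 g Q (Q ^ 2)) (TT n (v0 g Q (Q ^ 2))) = 0 := by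
    linear_combination h1 - ee ((omega z n : ℝ) / Q) *
      inner ℂ (v0 g Q (Q ^ 2)) (TT n (v0 g Q (Q ^ 2))) * h3
  rcases mul_eq_zero.1 h5 with h | h
  · exact absurd (sub_eq_zero.1 h) h4
  · exact h

end

end Pool.Agent.helper86.CM
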