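import Mathlib
import Pool.Agent.helper86.CM.Defs2
import Pool.Agent.helper46.CM.V0

/-!
# Quantum cat maps, module CON1: eigenspaces of scars, norms and diagonal matrix elements
-/

open scoped BigOperators

namespace Pool.Agent.helper86.CM

noncomputable section

/-! ### the Weyl relations for `TT` -/

theorem CON1_mul {g N : ℕ} [NeZero N] (m n : Lat g) (v : St g N) :
    TT m (TT n v) = ee ((omega m n : ℝ) / (2 * N)) • TT (m + n) v := by
  obtain ⟨W, hW⟩ := TW g N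
  have h := W.mul m n v
  simp only [hW] at h
  exact h

theorem CON1_zero {g N : ℕ} [NeZero N] (v : St g N) : TT (0 : Lat g) v = v := by
  obtain ⟨W, hW⟩ := TW g N
  have h := W.zero v
  simpa only [hW] using h

theorem CON1_per {g N : ℕ} [NeZero N] (n : Lat g) (v : St g N) : TT ((2 * N) • n) v = v := by
  obtain ⟨W, hW⟩ := TW g N
  have h := W.per n v
  simpa only [hW] using h

theorem CON1_norm {g N : ℕ} [NeZero N] (n : Lat g) (v : St g N) : ‖TT n v‖ = ‖v‖ := by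
  obtain ⟨W, hW⟩ := TW g N
  have h := W.norm n v
  simpa only [hW] using h

theorem CON1_omega_self {g : ℕ} (z : Lat g) : omega z z = 0 := by
  unfold omega
  refine Finset.sum_eq_zero fun i _ => by ring

theorem CON1_omega_neg_left {g : ℕ} (m n : Lat g) : omega (-m) n = - omega m n := by
  unfold omega
  rw [← Finset.sum_neg_distrib]
  refine Finset.sum_congr rfl fun i _ => ?_
  simp only [Pi.neg_apply]
  ring

theorem CON1_add_of_omega {g N : ℕ} [NeZero N] {m n : Lat g} (h : omega m n = 0) (v : St g N) :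
    TT m (TT n v) = TT (m + n) v := by
  rw [CON1_mul, h, Int.cast_zero, zero_div]
  have : ee 0 = 1 := by exact_mod_cast V0_ee_int 0
  rw [this, one_smul]

theorem CON1_neg_self {g N : ℕ} [NeZero N] (a : Lat g) (v : St g N) : TT (-a) (TT a v) = v := by
  rw [CON1_add_of_omega, neg_add_cancel, CON1_zero]
  rw [CON1_omega_neg_left, CON1_omega_self, neg_zero]

theorem CON1_self_neg {g N : ℕ} [NeZero N] (a : Lat g) (v : St g N) : TT a (TT (-a) v) = v := by
  have := CON1_neg_self (-a) v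
  rwa [neg_neg] at this

theorem CON1_adj {g N : ℕ} [NeZero N] (a : Lat g) (v w : St g N) :
    inner ℂ v (TT a w) = inner ℂ (TT (-a) v) w := by
  have h := V0_inner (-a) v (TT a w)
  rw [CON1_neg_self] at h
  exact h.symm

theorem CON1_three {g N : ℕ} [NeZero N] (a n b : Lat g) (v w : St g N) :
    ∃ c : ℂ, inner ℂ (TT a v) (TT n (TT b w)) = c * inner ℂ v (TT (n + b - a) w) := by
  refine ⟨ee ((omega n b : ℝ) / (2 * N)) * ee ((omega (-a) (n + b) : ℝ) / (2 * N)), ?_⟩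
  have h := V0_inner (-a) (TT a v) (TT n (TT b w))
  rw [← h, CON1_neg_self, CON1_mul n b, map_smul, CON1_mul, inner_smul_right, inner_smul_right,
    mul_assoc]
  congr 3
  abel_nf

/-! ### the data of a pure scar function -/

theorem CON1_norm_char {d : Type} [Fintype d] (n : d → ℤ) (x : UnitAddTorus d) :
    ‖UnitAddTorus.mFourier n x‖ = 1 := by
  have h1 : (starRingEnd ℂ) (UnitAddTorus.mFourier n x) * UnitAddTorus.mFourier n x = 1 := by
    rw [← UnitAddTorus.mFourier_neg, ← UnitAddTorus.mFourier_add, neg_add_cancel,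
      UnitAddTorus.mFourier_zero]
    rfl
  rw [mul_comm, Complex.mul_conj] at h1
  have h2 : Complex.normSq (UnitAddTorus.mFourier n x) = 1 := by exact_mod_cast h1
  rw [Complex.normSq_eq_norm_sq] at h2
  exact (pow_eq_one_iff_of_nonneg (norm_nonneg _) two_ne_zero).1 h2

theorem CON1_qf_smul_odd {g : ℕ} {a : ℕ} (ha : Odd a) (z : Lat g) :
    ((-1 : ℂ)) ^ (qf (a • z)).natAbs = (-1) ^ (qf z).natAbs := by
  rw [V0_qf_smul, Int.natAbs_mul, Int.natAbs_pow, Int.natAbs_natCast, pow_mul]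
  congr 1
  exact (ha.pow).neg_one_pow

theorem CON1_data {g p : ℕ} [Fact p.Prime] (hp : p ≠ 2) {s : Lat g → ℂ} (hs : IsPure p s) :
    ∃ Λ : Submodule ℤ (Lat g), IsSat Λ ∧ (∀ z ∈ Λ, ∀ z' ∈ Λ, omega z z' = 0) ∧
      (∀ z, s z ≠ 0 ↔ z ∈ Λ) ∧ (∀ y ∈ Λ, ∀ z ∈ Λ, s (y + z) = s y * s z) ∧
      (∀ z ∈ Λ, ‖s z‖ = 1) ∧
      ∃ C : ℕ, ∀ l, C ≤ l → ∀ z ∈ Λ, s (p ^ l • z) = (-1) ^ (qf z).natAbs := by
  obtain ⟨Λ, x, hsat, hiso, ⟨C, hC⟩, hsx⟩ := hs
  have hmem : ∀ z ∈ Λ, s z = UnitAddTorus.mFourier z x := by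
    intro z hz
    rw [hsx, if_pos hz]
  refine ⟨Λ, hsat, hiso, ?_, ?_, ?_, C, ?_⟩
  · intro z
    constructor
    · intro h
      by_contra hz
      rw [hsx, if_neg hz] at h
      exact h rfl
    · intro hz h
      have := CON1_norm_char z x
      rw [← hmem z hz, h, norm_zero] at this
      exact zero_ne_one this
  · intro y hy z hz
    rw [hmem _ (Λ.add_mem hy hz), hmem y hy, hmem z hz, UnitAddTorus.mFourier_add]
  · intro z hz
    rw [hmem z hz]
    exact CON1_norm_char z x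
  · intro l hl z hz
    obtain ⟨j, rfl⟩ := Nat.exists_eq_add_of_le hl
    have h1 : (p ^ j) • z ∈ Λ := Λ.nsmul_mem hz _
    have hodd : Odd (p ^ j) := ((Fact.out : p.Prime).odd_of_ne_two hp).pow
    rw [hmem _ (Λ.nsmul_mem hz _), pow_add, mul_smul, hC _ h1, CON1_qf_smul_odd hodd]

/-- the averaging formula -/
theorem CON1_avg {g Q : ℕ} [NeZero Q] {s : Lat g → ℂ} {Λ : Submodule ℤ (Lat g)}
    (hiso : ∀ z ∈ Λ, ∀ z' ∈ Λ, omega z z' = 0) (hmem : ∀ z, s z ≠ 0 ↔ z ∈ Λ)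
    (hadd : ∀ y ∈ Λ, ∀ z ∈ Λ, s (y + z) = s y * s z) (hnorm : ∀ z ∈ Λ, ‖s z‖ = 1)
    (hQ : ∀ z ∈ Λ, s (Q • z) = (-1) ^ (qf z).natAbs) :
    ∃ (K : Type) (_ : Fintype K) (rep : K → Lat g), (∀ c, rep c ∈ Λ) ∧
      (∃ c, ∃ z, rep c = Q • z) ∧
      yy g Q s = ((Fintype.card K : ℂ))⁻¹ •
        ∑ c, (starRingEnd ℂ) (s (rep c)) • TT (rep c) (v0 g Q (Q ^ 2)) := by
  classical
  set M : ℕ := 2 * Q ^ 2 with hM
  have hMpos : M ≠ 0 := by
    rw [hM]
    have := NeZero.ne Q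
    positivity
  have hconj : ∀ z ∈ Λ, (starRingEnd ℂ) (s z) * s z = 1 := by
    intro z hz
    rw [mul_comm, Complex.mul_conj, Complex.normSq_eq_norm_sq, hnorm z hz]
    norm_num
  have hsM : ∀ z ∈ Λ, s (M • z) = 1 := by
    intro z hz
    have h1 : M • z = Q • ((2 * Q) • z) := by
      rw [smul_smul, hM]
      congr 1
      ring
    rw [h1, hQ _ (Λ.nsmul_mem hz _), V0_qf_smul, Int.natAbs_mul, Int.natAbs_pow,
      Int.natAbs_natCast, pow_mul]
    have h2 : Even ((2 * Q) ^ 2) := by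
      rw [pow_two, mul_assoc]
      exact even_two_mul _
    rw [h2.neg_one_pow, one_pow]
  -- the finite quotient
  let R : Submodule ℤ Λ := LinearMap.range ((M : ℤ) • (LinearMap.id : Λ →ₗ[ℤ] Λ))
  have htors : Module.IsTorsion ℤ (Λ ⧸ R) := by
    intro c
    obtain ⟨z, rfl⟩ := Submodule.mkQ_surjective R c
    refine ⟨⟨(M : ℤ), ?_⟩, ?_⟩
    · rw [mem_nonZeroDivisors_iff_ne_zero]
      exact_mod_cast hMpos
    · change (M : ℤ) • R.mkQ z = 0
      rw [← map_smul, Submodule.mkQ_apply, Submodule.Quotient.mk_eq_zero]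
      exact ⟨z, rfl⟩
  have hfin : Finite (Λ ⧸ R) := Module.finite_of_fg_torsion _ htors
  let _ : Fintype (Λ ⧸ R) := Fintype.ofFinite _
  let rep : (Λ ⧸ R) → Λ := Function.surjInv (Submodule.mkQ_surjective R)
  have hrep : ∀ c, R.mkQ (rep c) = c := Function.surjInv_eq (Submodule.mkQ_surjective R)
  let F : Lat g → St g (Q ^ 2) := fun z => (starRingEnd ℂ) (s z) • TT z (v0 g Q (Q ^ 2))
  have hFper : ∀ z ∈ Λ, ∀ w ∈ Λ, F (z + M • w) = F z := by
    intro z hz w hw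
    have hMw : M • w ∈ Λ := Λ.nsmul_mem hw _
    have h1 : TT (M • w) (v0 g Q (Q ^ 2)) = v0 g Q (Q ^ 2) := CON1_per w _
    simp only [F]
    rw [hadd z hz _ hMw, hsM w hw, mul_one, ← CON1_add_of_omega (hiso z hz _ hMw), h1]
  have hFeq : ∀ y z : Λ, R.mkQ y = R.mkQ z → F y = F z := by
    intro y z h
    have h1 : y - z ∈ R := by
      rw [← Submodule.Quotient.mk_eq_zero, ← Submodule.mkQ_apply, map_sub, h, sub_self]
    obtain ⟨w, hw⟩ := h1
    have h2 : (y : Lat g) = z + M • (w : Lat g) := by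
      have h4 : ((M : ℤ) • (LinearMap.id : Λ →ₗ[ℤ] Λ)) w = (M : ℤ) • w := rfl
      rw [h4] at hw
      have h3 : y = z + (M : ℤ) • w := eq_add_of_sub_eq' hw.symm
      rw [h3]
      simp
    rw [h2, hFper z z.2 w w.2]
  refine ⟨Λ ⧸ R, inferInstance, fun c => (rep c : Lat g), fun c => (rep c).2, ?_, ?_⟩
  · refine ⟨0, ?_⟩
    have h1 : rep 0 ∈ R := by
      rw [← Submodule.Quotient.mk_eq_zero, ← Submodule.mkQ_apply, hrep]
    obtain ⟨w, hw⟩ := h1
    refine ⟨(2 * Q) • (w : Lat g), ?_⟩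
    have h4 : ((M : ℤ) • (LinearMap.id : Λ →ₗ[ℤ] Λ)) w = (M : ℤ) • w := rfl
    rw [h4] at hw
    change ((rep 0 : Λ) : Lat g) = _
    rw [← hw, smul_smul, Submodule.coe_smul, ← Nat.cast_smul_eq_nsmul ℤ]
    congr 1
    rw [hM]
    push_cast
    ring
  · have hcard : ((Fintype.card (Λ ⧸ R) : ℕ) : ℂ) ≠ 0 := by
      have : Nonempty (Λ ⧸ R) := ⟨0⟩
      exact_mod_cast Fintype.card_ne_zero
    have hshift : ∀ y ∈ Λ, TT y (∑ c, F (rep c)) = s y • ∑ c, F (rep c) := by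
      intro y hy
      have h1 : ∀ c : Λ ⧸ R, TT y (F (rep c)) = s y • F (rep (R.mkQ ⟨y, hy⟩ + c)) := by
        intro c
        have h2 : F (rep (R.mkQ ⟨y, hy⟩ + c)) = F ((⟨y, hy⟩ : Λ) + rep c : Λ) := by
          apply hFeq
          rw [hrep, map_add, hrep]
        rw [h2]
        simp only [F, map_smul, Submodule.coe_add]
        rw [CON1_add_of_omega (hiso y hy _ (rep c).2), hadd y hy _ (rep c).2, smul_smul, map_mul,
          ← mul_assoc, mul_comm (s y), hconj y hy, one_mul]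
      rw [map_sum, Finset.sum_congr rfl (fun c _ => h1 c), ← Finset.smul_sum]
      congr 1
      exact Fintype.sum_equiv (Equiv.addLeft (R.mkQ ⟨y, hy⟩)) _ _ fun c => rfl
    unfold yy
    refine Submodule.eq_starProjection_of_mem_of_inner_eq_zero ?_ ?_
    · intro z hz
      have hz' := (hmem z).1 hz
      rw [map_smul, hshift z hz', smul_comm]
    · intro w hw
      have hw' : ∀ z ∈ Λ, TT z w = s z • w := fun z hz => hw z ((hmem z).2 hz)
      have h1 : ∀ c : Λ ⧸ R, inner ℂ (F (rep c)) w = inner ℂ (v0 g Q (Q ^ 2)) w := by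
        intro c
        have h2 := hw' _ (rep c).2
        have h3 := V0_inner (rep c : Lat g) (v0 g Q (Q ^ 2)) w
        rw [h2, inner_smul_right] at h3
        simp only [F]
        rw [inner_smul_left, Complex.conj_conj]
        exact h3
      rw [inner_sub_left, inner_smul_left, sum_inner, Finset.sum_congr rfl (fun c _ => h1 c),
        Finset.sum_const, Finset.card_univ, nsmul_eq_mul, ← mul_assoc, map_inv₀, Complex.conj_natCast,
        inv_mul_cancel₀ hcard, one_mul, sub_self]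

theorem CON1_mem {g Q : ℕ} [NeZero Q] {s : Lat g → ℂ} {z : Lat g} (hz : s z ≠ 0) :
    TT z (yy g Q s) = s z • yy g Q s := by
  have h : yy g Q s ∈ RR (N := Q ^ 2) s := Submodule.starProjection_apply_mem _ _
  exact h z hz

theorem CON1_ne {g Q : ℕ} [NeZero Q] {s : Lat g → ℂ} {Λ : Submodule ℤ (Lat g)} (hsat : IsSat Λ)
    (hiso : ∀ z ∈ Λ, ∀ z' ∈ Λ, omega z z' = 0) (hmem : ∀ z, s z ≠ 0 ↔ z ∈ Λ)
    (hadd : ∀ y ∈ Λ, ∀ z ∈ Λ, s (y + z) = s y * s z) (hnorm : ∀ z ∈ Λ, ‖s z‖ = 1)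
    (hQ : ∀ z ∈ Λ, s (Q • z) = (-1) ^ (qf z).natAbs) : yy g Q s ≠ 0 := by
  classical
  intro h0
  obtain ⟨K, hK, rep, hrep, ⟨c₀, z₀, hc₀⟩, hyy⟩ := CON1_avg hiso hmem hadd hnorm hQ
  have hQ0 : Q ≠ 0 := NeZero.ne _
  have hterm : ∀ c : K, inner ℂ (v0 g Q (Q ^ 2))
      ((starRingEnd ℂ) (s (rep c)) • TT (rep c) (v0 g Q (Q ^ 2))) =
      if ∃ z, rep c = Q • z then (1 : ℂ) else 0 := by
    intro c
    rw [inner_smul_right]
    split_ifs with h
    · obtain ⟨z, hz⟩ := h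
      have hzΛ : z ∈ Λ := by
        refine hsat (Q : ℤ) z (by exact_mod_cast hQ0) ?_
        have := hrep c
        rw [hz] at this
        rwa [Nat.cast_smul_eq_nsmul ℤ]
      rw [hz, hQ z hzΛ, V0b, inner_smul_right, inner_self_eq_norm_sq_to_K, V0a]
      rw [map_pow, ← mul_assoc, ← mul_pow]
      simp
    · rw [V0d g Q (rep c) h, mul_zero]
  have h1 : inner ℂ (v0 g Q (Q ^ 2)) (yy g Q s) =
      ((Fintype.card K : ℂ))⁻¹ * ∑ c : K, (if ∃ z, rep c = Q • z then (1 : ℂ) else 0) := by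
    rw [hyy, inner_smul_right, inner_sum, Finset.sum_congr rfl (fun c _ => hterm c)]
  rw [h0, inner_zero_right, eq_comm, mul_eq_zero] at h1
  rcases h1 with h1 | h1
  · have : Nonempty K := ⟨c₀⟩
    rw [inv_eq_zero] at h1
    exact Fintype.card_ne_zero (α := K) (by exact_mod_cast h1)
  · rw [← Finset.sum_filter, Finset.sum_const, nsmul_eq_mul, mul_one] at h1
    have h2 : (Finset.univ.filter fun c : K => ∃ z, rep c = Q • z).card = 0 := by
      exact_mod_cast h1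
    rw [Finset.card_eq_zero] at h2
    have h3 : c₀ ∈ (Finset.univ.filter fun c : K => ∃ z, rep c = Q • z) := by
      rw [Finset.mem_filter]
      exact ⟨Finset.mem_univ _, z₀, hc₀⟩
    rw [h2] at h3
    exact absurd h3 (Finset.notMem_empty _)

theorem CON1 (g p : ℕ) [Fact p.Prime] (hp : p ≠ 2) (s : Lat g → ℂ) (hs : IsPure p s) :
    ∃ l₀ : ℕ, ∀ l, l₀ ≤ l → yy g (p ^ l) s ≠ 0 := by
  obtain ⟨Λ, hsat, hiso, hmem, hadd, hnorm, C, hC⟩ := CON1_data hp hs
  exact ⟨C, fun l hl => CON1_ne hsat hiso hmem hadd hnorm (hC l hl)⟩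

/-- a vector outside a saturated lattice is outside `Λ + Q L` for large `Q` -/
theorem CON1_sep {g : ℕ} {Λ : Submodule ℤ (Lat g)} (hsat : IsSat Λ) {n : Lat g} (hn : n ∉ Λ) :
    ∃ B : ℕ, ∀ Q : ℕ, B ≤ Q → ∀ y ∈ Λ, ∀ z : Lat g, n + y ≠ Q • z := by
  have htf : Module.IsTorsionFree ℤ (Lat g ⧸ Λ) := by
    rw [Module.isTorsionFree_iff_smul_eq_zero]
    intro a c hac
    obtain ⟨z, rfl⟩ := Submodule.mkQ_surjective Λ c
    rw [← map_smul, Submodule.mkQ_apply, Submodule.Quotient.mk_eq_zero] at hac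
    by_cases ha : a = 0
    · exact Or.inl ha
    · right
      rw [Submodule.mkQ_apply, Submodule.Quotient.mk_eq_zero]
      exact hsat a z ha hac
  have : Module.Free ℤ (Lat g ⧸ Λ) := inferInstance
  have hn0 : Λ.mkQ n ≠ 0 := by
    rw [Submodule.mkQ_apply, Ne, Submodule.Quotient.mk_eq_zero]
    exact hn
  let b := Module.Free.chooseBasis ℤ (Lat g ⧸ Λ)
  have hex : ∃ i, b.repr (Λ.mkQ n) i ≠ 0 := by
    by_contra hcon
    push Not at hcon
    apply hn0
    apply b.repr.injective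
    ext i
    rw [hcon i, map_zero]
    rfl
  obtain ⟨i, hi⟩ := hex
  refine ⟨(b.repr (Λ.mkQ n) i).natAbs + 1, fun Q hQ y hy z h => hi ?_⟩
  have h1 : b.repr (Λ.mkQ n) i = (Q : ℤ) * b.repr (Λ.mkQ z) i := by
    have h2 : Λ.mkQ n = (Q : ℤ) • Λ.mkQ z := by
      have h3 : Λ.mkQ (n + y) = Λ.mkQ n := by
        rw [map_add]
        have : Λ.mkQ y = 0 := by
          rw [Submodule.mkQ_apply, Submodule.Quotient.mk_eq_zero]
          exact hy
        rw [this, add_zero]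
      rw [← h3, h, map_nsmul, Nat.cast_smul_eq_nsmul ℤ]
    rw [h2, map_smul]
    rfl
  refine Int.eq_zero_of_abs_lt_dvd (m := (Q : ℤ)) ⟨_, h1⟩ ?_
  rw [Int.abs_eq_natAbs]
  exact_mod_cast hQ

theorem CON1_diag_mem {g Q : ℕ} [NeZero Q] {s : Lat g → ℂ} {n : Lat g} (hn : s n ≠ 0) :
    inner ℂ (yy g Q s) (TT n (yy g Q s)) = s n * (‖yy g Q s‖ : ℂ) ^ 2 := by
  rw [CON1_mem hn, inner_smul_right, inner_self_eq_norm_sq_to_K]
  rfl

theorem CON1_diag_out {g Q : ℕ} [NeZero Q] {s : Lat g → ℂ} {Λ : Submodule ℤ (Lat g)}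
    (hiso : ∀ z ∈ Λ, ∀ z' ∈ Λ, omega z z' = 0) (hmem : ∀ z, s z ≠ 0 ↔ z ∈ Λ)
    (hadd : ∀ y ∈ Λ, ∀ z ∈ Λ, s (y + z) = s y * s z) (hnorm : ∀ z ∈ Λ, ‖s z‖ = 1)
    (hQ : ∀ z ∈ Λ, s (Q • z) = (-1) ^ (qf z).natAbs) {n : Lat g}
    (hn : ∀ y ∈ Λ, ∀ z : Lat g, n + y ≠ Q • z) : inner ℂ (yy g Q s) (TT n (yy g Q s)) = 0 := by
  obtain ⟨K, hK, rep, hrep, -, hyy⟩ := CON1_avg hiso hmem hadd hnorm hQ
  rw [hyy, map_smul, map_sum, inner_smul_left, inner_smul_right, sum_inner]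
  have h1 : ∀ c : K, inner ℂ ((starRingEnd ℂ) (s (rep c)) •
      TT (rep c) (v0 g Q (Q ^ 2))) (∑ c' : K, TT n ((starRingEnd ℂ) (s (rep c')) •
        TT (rep c') (v0 g Q (Q ^ 2)))) = 0 := by
    intro c
    rw [inner_sum]
    refine Finset.sum_eq_zero fun c' _ => ?_
    rw [map_smul, inner_smul_left, inner_smul_right]
    obtain ⟨k, hk⟩ := CON1_three (rep c) n (rep c') (v0 g Q (Q ^ 2)) (v0 g Q (Q ^ 2))
    rw [hk, V0d, mul_zero, mul_zero, mul_zero]
    rintro ⟨z, hz⟩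
    refine hn (rep c' - rep c) (Λ.sub_mem (hrep c') (hrep c)) z ?_
    rw [← hz]
    abel
  rw [Finset.sum_congr rfl (fun c _ => h1 c), Finset.sum_const_zero, mul_zero, mul_zero]

theorem CON1n (g p : ℕ) [Fact p.Prime] (hp : p ≠ 2) (s : Lat g → ℂ) (hs : IsPure p s)
    (n : Lat g) :
    ∃ l₀ : ℕ, ∀ l, l₀ ≤ l → inner ℂ (yy g (p ^ l) s) (TT n (yy g (p ^ l) s)) =
      s n * (‖yy g (p ^ l) s‖ : ℂ) ^ 2 := by
  obtain ⟨Λ, hsat, hiso, hmem, hadd, hnorm, C, hC⟩ := CON1_data hp hs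
  by_cases hn : n ∈ Λ
  · exact ⟨0, fun l _ => CON1_diag_mem ((hmem n).2 hn)⟩
  · obtain ⟨B, hB⟩ := CON1_sep hsat hn
    refine ⟨max C B, fun l hl => ?_⟩
    have hs0 : s n = 0 := by
      by_contra h
      exact hn ((hmem n).1 h)
    have hBl : B ≤ p ^ l := (le_of_max_le_right hl).trans
      (Nat.lt_pow_self (Fact.out : p.Prime).one_lt).le
    rw [CON1_diag_out hiso hmem hadd hnorm (hC l (le_of_max_le_left hl)) (hB (p ^ l) hBl), hs0,
      zero_mul]

end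

end Pool.Agent.helper86.CM
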