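import Mathlib
import Pool.Agent.helper86.CM.Defs2
import Pool.Agent.helper46.CM.CON1

/-!
# Quantum cat maps, module CON2: cross terms
-/

open scoped BigOperators

namespace Pool.Agent.helper86.CM

noncomputable section

/-- an inequality of Bessel type -/
theorem CON2_bessel {H : Type} [NormedAddCommGroup H] [InnerProductSpace ℂ H] (S : ℕ) (u : H)
    (w : Fin S → H) (r a : ℝ) (hr : ∀ j, ‖w j‖ = r) (ha : ∀ j, ‖(inner ℂ u (w j) : ℂ)‖ = a)
    (ho : ∀ i j, i ≠ j → (inner ℂ (w i) (w j) : ℂ) = 0) : (S : ℝ) * a ^ 2 ≤ ‖u‖ ^ 2 * r ^ 2 := by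
  rcases Nat.eq_zero_or_pos S with hS | hS
  · subst hS
    rw [Nat.cast_zero, zero_mul]
    positivity
  have hr0 : 0 ≤ r := by
    rw [← hr ⟨0, hS⟩]
    exact norm_nonneg _
  rcases hr0.eq_or_lt with h | h
  · have h1 : w ⟨0, hS⟩ = 0 := by
      rw [← norm_eq_zero, hr, ← h]
    have h2 := ha ⟨0, hS⟩
    rw [h1, inner_zero_right, norm_zero] at h2
    rw [← h2, ← h]
    simp
  · have hon : Orthonormal ℂ (fun j => ((r : ℂ)⁻¹) • w j) := by
      constructor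
      · intro j
        rw [norm_smul, norm_inv, Complex.norm_real, Real.norm_of_nonneg hr0, hr,
          inv_mul_cancel₀ h.ne']
      · intro i j hij
        rw [inner_smul_left, inner_smul_right, ho i j hij, mul_zero, mul_zero]
    have h3 := hon.sum_inner_products_le u (s := Finset.univ)
    have h4 : ∀ j : Fin S, ‖(inner ℂ (((r : ℂ)⁻¹) • w j) u : ℂ)‖ ^ 2 = a ^ 2 / r ^ 2 := by
      intro j
      rw [inner_smul_left, norm_mul, norm_inner_symm, ha, map_inv₀, Complex.conj_ofReal, norm_inv,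
        Complex.norm_real, Real.norm_of_nonneg hr0]
      field_simp
    rw [Finset.sum_congr rfl (fun j _ => h4 j), Finset.sum_const, Finset.card_univ,
      Fintype.card_fin, nsmul_eq_mul, ← mul_div_assoc, div_le_iff₀ (by positivity)] at h3
    exact h3

theorem CON2_same {g Q : ℕ} [NeZero Q] {s s' : Lat g → ℂ} {z : Lat g} (n : Lat g)
    (hz : ‖s z‖ = 1) (hz' : s' z ≠ 0)
    (hne : s' z * ee ((omega z n : ℝ) / ((Q ^ 2 : ℕ) : ℝ)) ≠ s z) :
    inner ℂ (yy g Q s) (TT n (yy g Q s')) = 0 := by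
  have hs0 : s z ≠ 0 := by
    intro h
    rw [h, norm_zero] at hz
    exact zero_ne_one hz
  have h1 := V0_inner z (yy g Q s) (TT n (yy g Q s'))
  rw [V0_comm, CON1_mem hs0, CON1_mem hz', map_smul, inner_smul_left, inner_smul_right,
    inner_smul_right] at h1
  have hconj : (starRingEnd ℂ) (s z) * s z = 1 := by
    rw [mul_comm, Complex.mul_conj, Complex.normSq_eq_norm_sq, hz]
    norm_num
  set I := (inner ℂ (yy g Q s) (TT n (yy g Q s')) : ℂ)
  have h2 : (s' z * ee ((omega z n : ℝ) / ((Q ^ 2 : ℕ) : ℝ)) - s z) * I = 0 := by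
    linear_combination s z * h1 - ee ((omega z n : ℝ) / ((Q ^ 2 : ℕ) : ℝ)) * s' z * I * hconj
  rcases mul_eq_zero.1 h2 with h | h
  · exact absurd (sub_eq_zero.1 h) hne
  · exact h

theorem CON2_omega_smul_smul {g : ℕ} (i j : ℕ) (z : Lat g) : omega (-(i • z)) (j • z) = 0 := by
  rw [CON1_omega_neg_left, V0_omega_smul]
  have h : omega z (j • z) = j * omega z z := by
    unfold omega
    rw [Finset.mul_sum]
    refine Finset.sum_congr rfl fun k _ => ?_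
    simp only [Pi.smul_apply, nsmul_eq_mul]
    ring
  rw [h, CON1_omega_self, mul_zero, mul_zero, neg_zero]

theorem CON2_diff {g Q : ℕ} [NeZero Q] {s s' : Lat g → ℂ} {z : Lat g} (n : Lat g) (S : ℕ)
    (hz : ∀ j : ℕ, ‖s (-(j • z))‖ = 1)
    (ho : ∀ i < S, ∀ j < S, i ≠ j →
      inner ℂ (yy g Q s') (TT (-(i • z) + j • z) (yy g Q s')) = 0) :
    (S : ℝ) * ‖(inner ℂ (yy g Q s) (TT n (yy g Q s')) : ℂ)‖ ^ 2 ≤
      ‖yy g Q s‖ ^ 2 * ‖yy g Q s'‖ ^ 2 := by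
  refine CON2_bessel S (yy g Q s) (fun j => TT ((j : ℕ) • z) (TT n (yy g Q s'))) _ _ ?_ ?_ ?_
  · intro j
    rw [CON1_norm, CON1_norm]
  · intro j
    have hs0 : s (-((j : ℕ) • z)) ≠ 0 := by
      intro h
      have := hz j
      rw [h, norm_zero] at this
      exact zero_ne_one this
    rw [CON1_adj, CON1_mem hs0, inner_smul_left, norm_mul, RCLike.norm_conj, hz, one_mul]
  · intro i j hij
    have hij' : (i : ℕ) ≠ j := fun h => hij (Fin.ext h)
    rw [V0_comm ((i : ℕ) • z) n, V0_comm ((j : ℕ) • z) n, inner_smul_left, inner_smul_right,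
      V0_inner]
    have h1 := V0_inner (-((i : ℕ) • z)) (TT ((i : ℕ) • z) (yy g Q s'))
      (TT ((j : ℕ) • z) (yy g Q s'))
    rw [CON1_neg_self, CON1_add_of_omega (CON2_omega_smul_smul _ _ _),
      ho i i.2 j j.2 hij'] at h1
    rw [← h1, mul_zero, mul_zero]

theorem CON2_swap {g Q : ℕ} [NeZero Q] (s s' : Lat g → ℂ) (n : Lat g) :
    ‖(inner ℂ (yy g Q s') (TT (-n) (yy g Q s)) : ℂ)‖ =
      ‖(inner ℂ (yy g Q s) (TT n (yy g Q s')) : ℂ)‖ := by
  rw [CON1_adj, neg_neg, norm_inner_symm]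

theorem CON2_case (g p : ℕ) [Fact p.Prime] (hp : p ≠ 2) (s s' : Lat g → ℂ) (hs : IsPure p s)
    (hs' : IsPure p s') {Λ Λ' : Submodule ℤ (Lat g)} (hmem : ∀ z, s z ≠ 0 ↔ z ∈ Λ)
    (hnorm : ∀ z ∈ Λ, ‖s z‖ = 1) (hsat' : IsSat Λ') (hmem' : ∀ z, s' z ≠ 0 ↔ z ∈ Λ')
    {z : Lat g} (hz : z ∈ Λ) (hz' : z ∉ Λ') (n : Lat g) (ε : ℝ) (hε : 0 < ε) :
    ∃ l₀ : ℕ, ∀ l, l₀ ≤ l → ‖(inner ℂ (yy g (p ^ l) s) (TT n (yy g (p ^ l) s')) : ℂ)‖ ≤
      ε * ‖yy g (p ^ l) s‖ * ‖yy g (p ^ l) s'‖ := by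
  obtain ⟨S, hS⟩ := exists_nat_gt (1 / ε ^ 2)
  have hS0 : (0 : ℝ) < S := lt_trans (by positivity) hS
  choose l₁ hl₁ using fun m : Lat g => CON1n g p hp s' hs' m
  refine ⟨(Finset.range S).sup fun i => (Finset.range S).sup fun j => l₁ (-(i • z) + j • z),
    fun l hl => ?_⟩
  have key : ∀ i < S, ∀ j < S, i ≠ j →
      inner ℂ (yy g (p ^ l) s') (TT (-(i • z) + j • z) (yy g (p ^ l) s')) = 0 := by
    intro i hi j hj hij
    have h1 : l₁ (-(i • z) + j • z) ≤ l := by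
      refine le_trans ?_ hl
      refine le_trans ?_ (Finset.le_sup (f := fun i => (Finset.range S).sup fun j =>
        l₁ (-(i • z) + j • z)) (Finset.mem_range.2 hi))
      exact Finset.le_sup (f := fun j => l₁ (-(i • z) + j • z)) (Finset.mem_range.2 hj)
    rw [hl₁ _ l h1]
    have h2 : s' (-(i • z) + j • z) = 0 := by
      by_contra h
      have h3 := (hmem' _).1 h
      apply hz'
      refine hsat' ((j : ℤ) - i) z (by
        rw [sub_ne_zero]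
        exact_mod_cast hij.symm) ?_
      rw [sub_smul, natCast_zsmul, natCast_zsmul, sub_eq_neg_add]
      exact h3
    rw [h2, zero_mul]
  have h3 := CON2_diff (s := s) n S (fun j => hnorm _ (Λ.neg_mem (Λ.nsmul_mem hz j))) key
  set a := ‖(inner ℂ (yy g (p ^ l) s) (TT n (yy g (p ^ l) s')) : ℂ)‖
  have h4 : a ^ 2 ≤ (ε * ‖yy g (p ^ l) s‖ * ‖yy g (p ^ l) s'‖) ^ 2 := by
    have h5 : 1 ≤ ε ^ 2 * S := by
      rw [div_lt_iff₀ (by positivity)] at hS
      linarith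
    have h6 : a ^ 2 ≤ (ε ^ 2 * S) * a ^ 2 := le_mul_of_one_le_left (sq_nonneg _) h5
    have h7 : (ε ^ 2 * S) * a ^ 2 ≤ ε ^ 2 * (‖yy g (p ^ l) s‖ ^ 2 * ‖yy g (p ^ l) s'‖ ^ 2) := by
      rw [mul_assoc]
      exact mul_le_mul_of_nonneg_left h3 (sq_nonneg _)
    calc a ^ 2 ≤ (ε ^ 2 * S) * a ^ 2 := h6
      _ ≤ ε ^ 2 * (‖yy g (p ^ l) s‖ ^ 2 * ‖yy g (p ^ l) s'‖ ^ 2) := h7
      _ = _ := by ring
  exact le_of_sq_le_sq h4 (by positivity)

theorem CON2_tendsto (k : ℤ) (p : ℕ) (hp : 1 < p) :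
    Filter.Tendsto (fun l : ℕ => ee ((k : ℝ) / (((p ^ l) ^ 2 : ℕ) : ℝ))) Filter.atTop (nhds 1) := by
  have h0 : ee 0 = 1 := by exact_mod_cast V0_ee_int 0
  have hc : Continuous ee := by
    unfold ee
    fun_prop
  have h1 : Filter.Tendsto (fun l : ℕ => (k : ℝ) / (((p ^ l) ^ 2 : ℕ) : ℝ)) Filter.atTop
      (nhds 0) := by
    refine Filter.Tendsto.div_atTop tendsto_const_nhds ?_
    have h2 : Filter.Tendsto (fun l : ℕ => (p ^ l) ^ 2) Filter.atTop Filter.atTop := by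
      refine Filter.tendsto_atTop_mono (fun l => ?_) (tendsto_pow_atTop_atTop_of_one_lt hp)
      exact Nat.le_self_pow two_ne_zero _
    exact tendsto_natCast_atTop_atTop.comp h2
  have h3 := (hc.tendsto 0).comp h1
  rw [h0] at h3
  exact h3

theorem CON2 (g p : ℕ) [Fact p.Prime] (hp : p ≠ 2) (s s' : Lat g → ℂ) (hs : IsPure p s)
    (hs' : IsPure p s') (hne : s ≠ s') (n : Lat g) (ε : ℝ) (hε : 0 < ε) :
    ∃ l₀ : ℕ, ∀ l, l₀ ≤ l → ‖(inner ℂ (yy g (p ^ l) s) (TT n (yy g (p ^ l) s')) : ℂ)‖ ≤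
      ε * ‖yy g (p ^ l) s‖ * ‖yy g (p ^ l) s'‖ := by
  obtain ⟨Λ, hsat, hiso, hmem, hadd, hnorm, -⟩ := CON1_data hp hs
  obtain ⟨Λ', hsat', hiso', hmem', hadd', hnorm', -⟩ := CON1_data hp hs'
  by_cases h1 : ∃ z, z ∈ Λ ∧ z ∉ Λ'
  · obtain ⟨z, hz, hz'⟩ := h1
    exact CON2_case g p hp s s' hs hs' hmem hnorm hsat' hmem' hz hz' n ε hε
  by_cases h2 : ∃ z, z ∈ Λ' ∧ z ∉ Λ
  · obtain ⟨z, hz', hz⟩ := h2
    obtain ⟨l₀, hl₀⟩ := CON2_case g p hp s' s hs' hs hmem' hnorm' hsat hmem hz' hz (-n) ε hε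
    refine ⟨l₀, fun l hl => ?_⟩
    have h3 := hl₀ l hl
    rw [CON2_swap] at h3
    rw [mul_assoc, mul_comm ‖yy g (p ^ l) s‖, ← mul_assoc]
    exact h3
  push Not at h1 h2
  obtain ⟨z, hz⟩ := Function.ne_iff.1 hne
  have hzΛ : z ∈ Λ := by
    by_contra h
    have e1 : s z = 0 := by
      by_contra h3
      exact h ((hmem z).1 h3)
    have e2 : s' z = 0 := by
      by_contra h3
      exact h (h2 z ((hmem' z).1 h3))
    exact hz (e1.trans e2.symm)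
  have hzΛ' := h1 z hzΛ
  have ht : Filter.Tendsto (fun l : ℕ => s' z * ee ((omega z n : ℝ) / (((p ^ l) ^ 2 : ℕ) : ℝ)))
      Filter.atTop (nhds (s' z)) := by
    have := (CON2_tendsto (omega z n) p (Fact.out : p.Prime).one_lt).const_mul (s' z)
    rwa [mul_one] at this
  obtain ⟨l₀, hl₀⟩ := Filter.eventually_atTop.1 (ht.eventually_ne hz.symm)
  refine ⟨l₀, fun l hl => ?_⟩
  rw [CON2_same n (hnorm z hzΛ) ((hmem' z).2 hzΛ') (hl₀ l hl), norm_zero]
  positivity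

end

end Pool.Agent.helper86.CM
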